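import Pool.Agent.Helper74.FN.Defs
import Pool.Agent.Helper53.FM.Rl.A5

/-!
# FN-A2: the start of a tower (adapted from FM-A5)
-/

set_option autoImplicit false

namespace Pool.Agent.Helper57.FN

open Finset Filter
open Pool.Agent.Helper53.WR
open Pool.Agent.Helper48.FB (win crossF Cs Fs dens)
open Pool.Agent.Helper74.FN
open Pool.Agent.Helper94.FMR (YY class_split class_le_one YY_filter sum_two sum_four)

section num

variable {a0 u0 b0 : ℕ}

theorem sqrt_bound (ha1 : 1 ≤ a0) (hb : a0 * 2 ^ 80 ≤ 2 ^ (2 * b0)) (ha : 100 * u0 ≤ a0) :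
    8 * √(((4 * a0 + 8 * u0 : ℕ) : ℝ) * 2 ^ (4 * a0 + 8 * u0)) ≤
      2 ^ (b0 + 2 * a0 + 4 * u0) / 2 ^ 35 := by
  have hL : 4 * a0 + 8 * u0 ≤ 5 * a0 := by omega
  have h1 : √(((4 * a0 + 8 * u0 : ℕ) : ℝ) * 2 ^ (4 * a0 + 8 * u0)) ≤
      2 ^ (b0 + 2 * a0 + 4 * u0) / 2 ^ 38 := by
    rw [Real.sqrt_le_left (by positivity), div_pow, le_div_iff₀ (by positivity)]
    have h2 : (4 * a0 + 8 * u0) * 2 ^ (4 * a0 + 8 * u0) * (2 ^ 38) ^ 2 ≤
        (2 ^ (b0 + 2 * a0 + 4 * u0)) ^ 2 := by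
      calc (4 * a0 + 8 * u0) * 2 ^ (4 * a0 + 8 * u0) * (2 ^ 38) ^ 2
          ≤ (16 * a0) * 2 ^ (4 * a0 + 8 * u0) * (2 ^ 38) ^ 2 := by
            gcongr
            omega
        _ = (a0 * 2 ^ 80) * 2 ^ (4 * a0 + 8 * u0) := by ring
        _ ≤ 2 ^ (2 * b0) * 2 ^ (4 * a0 + 8 * u0) := Nat.mul_le_mul_right _ hb
        _ = (2 ^ (b0 + 2 * a0 + 4 * u0)) ^ 2 := by
            rw [← pow_add, ← pow_mul]; congr 1; ring
    exact_mod_cast h2
  calc 8 * √(((4 * a0 + 8 * u0 : ℕ) : ℝ) * 2 ^ (4 * a0 + 8 * u0))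
      ≤ 8 * (2 ^ (b0 + 2 * a0 + 4 * u0) / 2 ^ 38) := by gcongr
    _ = 2 ^ (b0 + 2 * a0 + 4 * u0) / 2 ^ 35 := by ring

theorem mean_bound (ha1 : 1 ≤ a0) (hb : a0 * 2 ^ 80 ≤ 2 ^ (2 * b0)) (ha : 100 * u0 ≤ a0)
    (m r s : ℕ) (hm : 2 ^ s ≤ m) :
    ∑ x ∈ YY (4 * a0 + 8 * u0) m r, dens (4 * a0 + 8 * u0) x ≤
      2 ^ (b0 + 2 * a0 + 4 * u0) / 2 ^ 35 / 2 ^ s := by
  have hm0 : 0 < m := lt_of_lt_of_le (by positivity) hm
  have h1 := Pool.Agent.Helper85.FB.class_dens_le (4 * a0 + 8 * u0) m r hm0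
  refine h1.trans ?_
  have hm' : (2 : ℝ) ^ s ≤ m := by exact_mod_cast hm
  exact div_le_div₀ (by positivity) (sqrt_bound ha1 hb ha) (by positivity) hm'

theorem exp_term {S : ℝ} {y : ℕ} (hS0 : 0 ≤ S) (h : 4 * S + 20 * a0 ≤ y) :
    Real.exp (Real.exp 1 * S) / Real.exp 1 ^ y ≤ Real.exp (-(20 * a0 : ℝ)) := by
  rw [← Real.exp_nat_mul, mul_one, ← Real.exp_sub]
  apply Real.exp_le_exp.2
  have h3 : Real.exp 1 * S ≤ 4 * S := by
    have he4 : Real.exp 1 ≤ 4 := by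
      have := Real.exp_one_lt_d9
      linarith
    exact mul_le_mul_of_nonneg_right he4 hS0
  linarith

theorem YY_nonneg (L m r : ℕ) : 0 ≤ ∑ x ∈ YY L m r, dens L x := by
  apply sum_nonneg
  intro x _
  unfold Pool.Agent.Helper48.FB.dens
  exact le_min (by norm_num) (Real.sqrt_nonneg _)

/-- the facts about `a0`, `u0`, `b0` -/
theorem small_a (hu : 1000 * (Nat.log 2 a0 + 60 + b0) ≤ u0) : 20 * a0 ≤ 2 ^ u0 := by
  have h1 : a0 < 2 ^ (Nat.log 2 a0 + 1) := Nat.lt_pow_succ_log_self (by norm_num) _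
  calc 20 * a0 ≤ 2 ^ 5 * 2 ^ (Nat.log 2 a0 + 1) := by omega
    _ = 2 ^ (5 + (Nat.log 2 a0 + 1)) := by rw [← pow_add]
    _ ≤ 2 ^ u0 := Nat.pow_le_pow_right (by norm_num) (by omega)

theorem term_two (ha1 : 1 ≤ a0) (hb : a0 * 2 ^ 80 ≤ 2 ^ (2 * b0)) (ha : 100 * u0 ≤ a0)
    (hu : 1000 * (Nat.log 2 a0 + 60 + b0) ≤ u0) {m r i ai y : ℕ}
    (hai : a0 + i * u0 ≤ ai) (hm : 2 ^ (2 * ai) ≤ m)
    (hy : 2 ^ (4 * u0 + b0) / 2 ^ i + 2 ^ (2 * u0) ≤ y) :
    Real.exp (Real.exp 1 * ∑ x ∈ YY (4 * a0 + 8 * u0) m r, dens (4 * a0 + 8 * u0) x) /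
      Real.exp 1 ^ y ≤ Real.exp (-(20 * a0 : ℝ)) := by
  refine exp_term (YY_nonneg _ _ _) ?_
  have hsm : (20 : ℝ) * a0 ≤ 2 ^ u0 := by exact_mod_cast small_a hu
  have hb1 : 1 ≤ b0 := by
    by_contra h0
    have : b0 = 0 := by omega
    rw [this] at hb
    omega
  rcases Nat.lt_or_ge i 2 with hi | hi
  · have hm' : 2 ^ (2 * a0) ≤ m := (Nat.pow_le_pow_right (by norm_num) (by nlinarith)).trans hm
    have h1 := mean_bound ha1 hb ha m r (2 * a0) hm'
    have h2 : (2 : ℝ) ^ (b0 + 2 * a0 + 4 * u0) / 2 ^ 35 / 2 ^ (2 * a0) =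
        2 ^ (4 * u0 + b0) / 2 ^ 35 := by
      rw [div_div, div_eq_div_iff (by positivity) (by positivity)]
      ring
    rw [h2] at h1
    have h3 : 2 ^ (4 * u0 + b0 - 1) ≤ y := by
      refine le_trans ?_ ((Nat.le_add_right _ _).trans hy)
      rw [Nat.le_div_iff_mul_le (by positivity)]
      calc 2 ^ (4 * u0 + b0 - 1) * 2 ^ i ≤ 2 ^ (4 * u0 + b0 - 1) * 2 ^ 1 := by
            gcongr
            · norm_num
            · omega
        _ = 2 ^ (4 * u0 + b0) := by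
            rw [← pow_add]
            congr 1
            omega
    have h4 : (2 : ℝ) ^ (4 * u0 + b0) = 2 * 2 ^ (4 * u0 + b0 - 1) := by
      rw [← pow_succ']
      congr 1
      omega
    have h5 : (2 : ℝ) ^ (4 * u0 + b0 - 1) ≤ y := by exact_mod_cast h3
    have h6 : (2 : ℝ) ^ u0 * 4 ≤ 2 ^ (4 * u0 + b0 - 1) := by
      have : (2 : ℝ) ^ u0 * 4 = 2 ^ (u0 + 2) := by
        rw [pow_add]
        norm_num
      rw [this]
      exact pow_le_pow_right₀ (by norm_num) (by omega)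
    rw [h4] at h1
    have h7 : (0 : ℝ) < 2 ^ (4 * u0 + b0 - 1) := by positivity
    have h8 : (2 : ℝ) * 2 ^ (4 * u0 + b0 - 1) / 2 ^ 35 ≤ 2 ^ (4 * u0 + b0 - 1) / 8 := by
      rw [div_le_div_iff₀ (by positivity) (by positivity)]
      nlinarith
    linarith
  · have hm' : 2 ^ (2 * a0 + 4 * u0) ≤ m :=
      (Nat.pow_le_pow_right (by norm_num) (by nlinarith)).trans hm
    have h1 := mean_bound ha1 hb ha m r (2 * a0 + 4 * u0) hm'
    have h2 : (2 : ℝ) ^ (b0 + 2 * a0 + 4 * u0) / 2 ^ 35 / 2 ^ (2 * a0 + 4 * u0) =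
        2 ^ b0 / 2 ^ 35 := by
      rw [div_div, div_eq_div_iff (by positivity) (by positivity)]
      ring
    rw [h2] at h1
    have h3 : (2 : ℝ) ^ (2 * u0) ≤ y := by
      exact_mod_cast (Nat.le_add_left _ _).trans hy
    have h4 : (2 : ℝ) ^ b0 / 2 ^ 35 ≤ 2 ^ b0 := div_le_self (by positivity) (by norm_num)
    have h5 : (2 : ℝ) ^ b0 ≤ 2 ^ u0 := pow_le_pow_right₀ (by norm_num) (by omega)
    have h6 : (2 : ℝ) ^ u0 * 8 ≤ 2 ^ (2 * u0) := by
      have : (2 : ℝ) ^ u0 * 8 = 2 ^ (u0 + 3) := by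
        rw [pow_add]
        norm_num
      rw [this]
      exact pow_le_pow_right₀ (by norm_num) (by omega)
    linarith

theorem term_four (ha1 : 1 ≤ a0) (hb : a0 * 2 ^ 80 ≤ 2 ^ (2 * b0)) (ha : 100 * u0 ≤ a0)
    (hu : 1000 * (Nat.log 2 a0 + 60 + b0) ≤ u0) {m r : ℕ} (hm : 2 ^ (4 * a0) ≤ m) :
    Real.exp ((2 : ℝ) ^ a0 * ∑ x ∈ YY (4 * a0 + 8 * u0) m r, dens (4 * a0 + 8 * u0) x) /
      ((2 : ℝ) ^ a0) ^ 8 ≤ 4 / 2 ^ (8 * a0) := by
  have h1 := mean_bound ha1 hb ha m r (4 * a0) hm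
  have h2 : (2 : ℝ) ^ a0 * (2 ^ (b0 + 2 * a0 + 4 * u0) / 2 ^ 35 / 2 ^ (4 * a0)) ≤ 1 := by
    have e1 : (2 : ℝ) ^ (b0 + 2 * a0 + 4 * u0) / 2 ^ 35 ≤ 2 ^ (b0 + 2 * a0 + 4 * u0) :=
      div_le_self (by positivity) (by norm_num)
    calc (2 : ℝ) ^ a0 * (2 ^ (b0 + 2 * a0 + 4 * u0) / 2 ^ 35 / 2 ^ (4 * a0))
        ≤ (2 : ℝ) ^ a0 * (2 ^ (b0 + 2 * a0 + 4 * u0) / 2 ^ (4 * a0)) := by gcongr
      _ ≤ 1 := by
        rw [← mul_div_assoc, div_le_one (by positivity), ← pow_add]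
        exact pow_le_pow_right₀ (by norm_num) (by omega)
  have h3 : (2 : ℝ) ^ a0 * ∑ x ∈ YY (4 * a0 + 8 * u0) m r, dens (4 * a0 + 8 * u0) x ≤ 1 :=
    (mul_le_mul_of_nonneg_left h1 (by positivity)).trans h2
  have e8 : ((2 : ℝ) ^ a0) ^ 8 = 2 ^ (8 * a0) := by rw [← pow_mul]; congr 1; ring
  rw [e8]
  have h4 : Real.exp ((2 : ℝ) ^ a0 *
      ∑ x ∈ YY (4 * a0 + 8 * u0) m r, dens (4 * a0 + 8 * u0) x) ≤ 4 := by
    have h5 := Real.exp_le_exp.2 h3
    have h6 := Real.exp_one_lt_d9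
    linarith
  exact div_le_div_of_nonneg_right h4 (by positivity)

end num

theorem a_ge {a u b w r c : ℕ → ℕ} (h : NTow a u b w r c) (i : ℕ) : a 0 + i * u 0 ≤ a i := by
  have hu : ∀ i, u 0 ≤ u i := by
    intro i
    induction i with
    | zero => exact le_rfl
    | succ i ih => exact ih.trans (h.uu' i)
  induction i with
  | zero => omega
  | succ i ih =>
    have := h.step i
    have := hu i
    rw [add_mul, one_mul]
    omega

/-- FN-A2 (start of a tower). -/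
theorem ni_zero {a u b w r c : ℕ → ℕ} (h : NTow a u b w r c) (q : ℕ → ℕ)
    (hq : ∀ i, (q i).Prime ∧ 2 ^ (a i) < q i ∧ q i ≤ 2 ^ (a i + 1)) :
    ∃ O, NI a u b r c q 0 O ∧ ∀ n, repF O n ≤ Cs * a 0 := by
  have hu : 1000 * (Nat.log 2 (a 0) + 60 + b 0) ≤ u 0 := by
    have := h.lu 0
    omega
  have ha : 100 * u 0 ≤ a 0 := by
    have h1 := h.ua 0
    have h2 := h.r1 0
    have h3 : u 0 * 1 ≤ u 0 * r 0 := Nat.mul_le_mul_left _ h2
    omega
  have ha1 : 1 ≤ a 0 := by omega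
  have h300 : 100 * 300 ≤ u 0 := by omega
  have hb := h.ab 0
  have hma : ∀ i, a 0 ≤ a i := fun i => by
    have := a_ge h i
    omega
  have hmu : ∀ i, u 0 ≤ u i := by
    intro i
    induction i with
    | zero => exact le_rfl
    | succ i ih => exact ih.trans (h.uu' i)
  have hmb : ∀ i, b 0 ≤ b i := by
    intro i
    induction i with
    | zero => exact le_rfl
    | succ i ih => exact ih.trans (h.bb i)
  have hile : ∀ i, i ≤ a i := fun i => by
    have h1 := a_ge h i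
    have h2 : i * 1 ≤ i * u 0 := Nat.mul_le_mul_left _ (by omega)
    omega
  have hL100 : 100 ≤ 4 * a 0 + 8 * u 0 := by omega
  have hq2 : ∀ i, 2 ^ (2 * a i) ≤ q i ^ 2 := by
    intro i
    calc 2 ^ (2 * a i) = (2 ^ a i) ^ 2 := by rw [← pow_mul]; congr 1; ring
      _ ≤ q i ^ 2 := Nat.pow_le_pow_left (hq i).2.1.le 2
  have hq4 : ∀ i, 2 ^ (4 * a 0) ≤ q i ^ 4 := by
    intro i
    calc 2 ^ (4 * a 0) ≤ 2 ^ (4 * a i) := Nat.pow_le_pow_right (by norm_num) (by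
          have := hma i; omega)
      _ = (2 ^ a i) ^ 4 := by rw [← pow_mul]; congr 1; ring
      _ ≤ q i ^ 4 := Nat.pow_le_pow_left (hq i).2.1.le 4
  have hYle : ∀ i, 2 ^ (4 * u 0 + b 0) / 2 ^ i + 2 ^ (2 * u 0) ≤
      2 ^ (4 * u i + b i) / 2 ^ i + 2 ^ (2 * u i) := by
    intro i
    have h1 := hmu i
    have h2 := hmb i
    refine Nat.add_le_add (Nat.div_le_div_right (Nat.pow_le_pow_right (by norm_num) (by omega)))
      (Nat.pow_le_pow_right (by norm_num) (by omega))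
  have hfam : ∑ j ∈ ((range (3 * a 0 + 1)) ×ˢ (range (2 ^ (6 * a 0 + 2)))).disjSum
      ((range (4 * a 0 + 8 * u 0)) ×ˢ (range (2 ^ (4 * a 0 + 8 * u 0 + 4)))),
      Real.exp ((Sum.elim (fun _ => Real.exp 1) (fun _ => (2 : ℝ) ^ a 0) j) *
        ∑ x ∈ ((Sum.elim (fun p : ℕ × ℕ => YY (4 * a 0 + 8 * u 0) (q p.1 ^ 2) p.2)
          (fun p : ℕ × ℕ => YY (4 * a 0 + 8 * u 0) (q p.1 ^ 4) p.2) j)).filter
            (fun x => 0 ≤ x ∧ x < 2 ^ (4 * a 0 + 8 * u 0)), dens (4 * a 0 + 8 * u 0) x) /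
        (Sum.elim (fun _ => Real.exp 1) (fun _ => (2 : ℝ) ^ a 0) j) ^
          (Sum.elim (fun p : ℕ × ℕ => 2 ^ (4 * u p.1 + b p.1) / 2 ^ p.1 + 2 ^ (2 * u p.1))
            (fun _ => 8) j) < 1 / 2 := by
    rw [Finset.sum_disjSum]
    simp only [Sum.elim_inl, Sum.elim_inr, YY_filter]
    have s1 : ∑ p ∈ (range (3 * a 0 + 1)) ×ˢ (range (2 ^ (6 * a 0 + 2))),
        Real.exp (Real.exp 1 * ∑ x ∈ YY (4 * a 0 + 8 * u 0) (q p.1 ^ 2) p.2,
          dens (4 * a 0 + 8 * u 0) x) / Real.exp 1 ^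
            (2 ^ (4 * u p.1 + b p.1) / 2 ^ p.1 + 2 ^ (2 * u p.1)) ≤
        ((3 * a 0 + 1) * 2 ^ (6 * a 0 + 2) : ℝ) * Real.exp (-(20 * a 0 : ℝ)) := by
      refine (Finset.sum_le_card_nsmul _ _ (Real.exp (-(20 * a 0 : ℝ))) ?_).trans (le_of_eq ?_)
      · intro p _
        exact term_two ha1 hb ha hu (a_ge h p.1) (hq2 p.1) (hYle p.1)
      · rw [nsmul_eq_mul, card_product, card_range, card_range]
        push_cast
        ring
    have s2 : ∑ p ∈ (range (4 * a 0 + 8 * u 0)) ×ˢ (range (2 ^ (4 * a 0 + 8 * u 0 + 4))),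
        Real.exp ((2 : ℝ) ^ a 0 * ∑ x ∈ YY (4 * a 0 + 8 * u 0) (q p.1 ^ 4) p.2,
          dens (4 * a 0 + 8 * u 0) x) / ((2 : ℝ) ^ a 0) ^ 8 ≤
        (((4 * a 0 + 8 * u 0) * 2 ^ (4 * a 0 + 8 * u 0 + 4) : ℕ) : ℝ) * (4 / 2 ^ (8 * a 0)) := by
      refine (Finset.sum_le_card_nsmul _ _ (4 / 2 ^ (8 * a 0)) ?_).trans (le_of_eq ?_)
      · intro p _
        exact term_four ha1 hb ha hu (hq4 p.1)
      · rw [nsmul_eq_mul, card_product, card_range, card_range]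
    have s3 := sum_two (a0 := a 0) (by omega)
    have s4 := sum_four (a0 := a 0) (u0 := u 0) (e0 := 300) (by norm_num) h300 ha
    linarith
  obtain ⟨R, hR1, hR0, hR2, hR3, hR4, hR5⟩ := Pool.Agent.Helper81.FMR.filler_core_bal 0
    (4 * a 0 + 8 * u 0) hL100 _ _ _ _ (by
      intro j _
      rcases j with j | j
      · simp only [Sum.elim_inl]
        have := Real.exp_one_gt_d9
        linarith
      · simp only [Sum.elim_inr]
        exact one_le_pow₀ (by norm_num)) hfam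
  have hlt : ∀ x ∈ R, x < 2 ^ (4 * a 0 + 8 * u 0) := fun x hx => (hR1 x hx).2
  have hrep : ∀ n, repF R n ≤ Cs * a 0 := by
    intro n
    refine (hR3 n).trans ?_
    unfold Cs
    omega
  have h100 : 100 < 2 ^ (4 * a 0 + 8 * u 0) := by
    have h1 : 4 * a 0 + 8 * u 0 < 2 ^ (4 * a 0 + 8 * u 0) := Nat.lt_two_pow_self
    omega
  have hfour : ∀ i x, (R.filter (fun o => o % q i ^ 4 = x)).card ≤ 8 := by
    intro i x
    rcases lt_or_ge (4 * a i) (4 * a 0 + 8 * u 0) with hi | hi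
    · have hqi : q i ^ 4 ≤ 2 ^ (4 * a 0 + 8 * u 0 + 4) := by
        calc q i ^ 4 ≤ (2 ^ (a i + 1)) ^ 4 := Nat.pow_le_pow_left (hq i).2.2 4
          _ = 2 ^ (4 * a i + 4) := by rw [← pow_mul]; congr 1; ring
          _ ≤ _ := Nat.pow_le_pow_right (by norm_num) (by omega)
      rcases lt_or_ge x (q i ^ 4) with hr | hr
      · have h1 := hR5 (Sum.inr (i, x)) (by
          rw [Finset.inr_mem_disjSum, mem_product, mem_range, mem_range]
          refine ⟨?_, lt_of_lt_of_le hr hqi⟩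
          have := hile i
          simp only
          omega)
        simp only [Sum.elim_inr] at h1
        have h2 := class_split R (4 * a 0 + 8 * u 0) (q i ^ 4) x hlt
        omega
      · have : (R.filter (fun o => o % q i ^ 4 = x)) = ∅ := by
          rw [filter_eq_empty_iff]
          intro y _ hy
          have h3 : 0 < q i ^ 4 := by have := (hq i).1.pos; positivity
          have := Nat.mod_lt y h3
          omega
        rw [this, card_empty]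
        exact Nat.zero_le _
    · have h1 := class_le_one R (q i ^ 4) (fun o ho => lt_of_lt_of_le (hlt o ho) (by
        calc 2 ^ (4 * a 0 + 8 * u 0) ≤ 2 ^ (4 * a i) :=
              Nat.pow_le_pow_right (by norm_num) (by omega)
          _ = (2 ^ a i) ^ 4 := by rw [← pow_mul]; congr 1; ring
          _ ≤ q i ^ 4 := Nat.pow_le_pow_left (hq i).2.1.le 4)) x
      omega
  refine ⟨R, ⟨hlt, ⟨hR0 0 (Nat.zero_le _) (by omega) (by omega),
    hR0 1 (Nat.zero_le _) (by omega) (by omega)⟩, ?_, ?_, ?_, ?_, fun n _ => hrep n⟩, hrep⟩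
  · intro i _ x
    rw [Nat.sub_zero, zero_add, one_mul]
    rcases le_or_gt (a i) (3 * a 0) with hi | hi
    · have hqi : q i ^ 2 ≤ 2 ^ (6 * a 0 + 2) := by
        calc q i ^ 2 ≤ (2 ^ (a i + 1)) ^ 2 := Nat.pow_le_pow_left (hq i).2.2 2
          _ = 2 ^ (2 * a i + 2) := by rw [← pow_mul]; congr 1; ring
          _ ≤ _ := Nat.pow_le_pow_right (by norm_num) (by omega)
      rcases lt_or_ge x (q i ^ 2) with hr | hr
      · have h1 := hR5 (Sum.inl (i, x)) (by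
          rw [Finset.inl_mem_disjSum, mem_product, mem_range, mem_range]
          refine ⟨?_, lt_of_lt_of_le hr hqi⟩
          have := hile i
          simp only
          omega)
        simp only [Sum.elim_inl] at h1
        have h2 := class_split R (4 * a 0 + 8 * u 0) (q i ^ 2) x hlt
        omega
      · have : (R.filter (fun o => o % q i ^ 2 = x)) = ∅ := by
          rw [filter_eq_empty_iff]
          intro y _ hy
          have h3 : 0 < q i ^ 2 := by have := (hq i).1.pos; positivity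
          have := Nat.mod_lt y h3
          omega
        rw [this, card_empty]
        exact Nat.zero_le _
    · have h1 := class_le_one R (q i ^ 2) (fun o ho => lt_of_lt_of_le (hlt o ho) (by
        calc 2 ^ (4 * a 0 + 8 * u 0) ≤ 2 ^ (2 * a i) :=
              Nat.pow_le_pow_right (by norm_num) (by omega)
          _ = (2 ^ a i) ^ 2 := by rw [← pow_mul]; congr 1; ring
          _ ≤ q i ^ 2 := Nat.pow_le_pow_left (hq i).2.1.le 2)) x
      have h2 : 1 ≤ 2 ^ (2 * u i) := Nat.one_le_two_pow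
      exact (h1.trans h2).trans (Nat.le_add_left _ _)
  · intro x
    have := hfour 0 x
    unfold C4
    omega
  · intro x
    have := hfour (0 + 1) x
    unfold C4
    omega
  · intro n hn2 hn
    obtain ⟨x, hx, z, hz, hxz, h1, h2⟩ := hR2 n hn2 (by omega) (lt_of_lt_of_le hn
      (Nat.pow_le_pow_right (by norm_num) (by omega)))
    have hc := h.c2 0
    have h4 : 4 ≤ 2 * c 0 := by omega
    exact ⟨x, hx, z, hz, hxz, h1.trans (Nat.mul_le_mul_right x h4),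
      h2.trans (Nat.mul_le_mul_right z h4)⟩

end Pool.Agent.Helper57.FN
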